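import Pool.Agent.Helper97.PD.Defs
import Pool.Agent.Helper13.MLT.G1X

/-!
# Project PD, block P5: the relations, with the given options
-/

set_option autoImplicit false

namespace Pool.Agent.PD

open Polynomial NumberField IsDedekindDomain
open Pool.Agent.HG Pool.Agent.ML
open scoped Pointwise IntermediateField

section final

variable {k L : Type} [Field k] [NumberField k] [Field L] [NumberField L] [Algebra k L]
  [IsGalois k L] {f : k[X]} (X : Ctx k L f) {n : ℕ} (ℓ : ℕ)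

open scoped Classical in
theorem badT_ofL20 [NeZero ℓ] (hm : 0 < X.m) (hfin : {v : Pr k | ¬ Gd X.M v}.Finite) (ι : Type)
    (Vι : Pr k → L → Finset ι) (Al : Fin n → L → Prop) (w : L → Fin n → ℕ)
    (g : Pr k × Fin n → (Σ _ : L × rootsOfUnity ℓ k, ι) → L → rootsOfUnity ℓ k)
    (S : Finset (Pr k × Fin n)) (hS : ∀ v ∈ S, Gd X.M v.1)
    (t : Pr k → L) (u : Pr k → rootsOfUnity ℓ k) (i : Pr k → ι)
    (hi : ∀ v ∈ S, i v.1 ∈ Vι v.1 (t v.1) ∧ Al v.2 (t v.1))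
    (ht : ∀ v ∈ S, t v.1 ∈ X.Ω ∧ X.F v.1 (t v.1) = t v.1)
    (h : ∀ v ∈ S, ∀ ρ ∈ X.R v.1, ρ ≠ t v.1 →
      ∏ q ∈ S.filter (fun q => q ≠ v ∧ X.cmp hm (t q.1) = X.cmp hm ρ),
        chl X ℓ v.1 (X.len v.1 ρ) (aeval ρ (X.B q.1 (t q.1))) ^ w (t q.1) q.2 =
          g v ⟨(t v.1, u v.1), i v.1⟩ ρ) :
    BadT (cdL X n ℓ hm hfin ι Vι Al w g) S (fun v => ⟨(t v.1, u v.1), i v.1⟩) := by
  have hpf : Pool.Agent.Helper99.HG.pf (cdL X n ℓ hm hfin ι Vι Al w g) S = S := by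
    unfold Pool.Agent.Helper99.HG.pf
    refine Finset.filter_true_of_mem fun v hv => ?_
    intro h1
    exact (hfin.mem_toFinset.1 (Finset.mem_product.1 h1).1) (hS v hv)
  unfold BadT
  rw [hpf]
  intro (v : Pr k × Fin n) hv
  refine ⟨?_, ?_⟩
  · refine Finset.mem_sigma.2 ⟨Finset.mem_product.2 ⟨?_, ?_⟩, (hi v hv).1⟩
    · exact Finset.mem_filter.2 ⟨Finset.mem_filter.2 (ht v hv), (hi v hv).2⟩
    · exact (Set.Finite.mem_toFinset _).2 (Set.mem_univ _)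
  intro j (ρ : L) hρ
  obtain ⟨hρt, hρ2⟩ := Finset.mem_erase.1 hρ
  have hρ3 : ρ ∈ X.R v.1 ∧ X.cmp hm ρ = j := by
    exact (@Finset.mem_filter L (fun ρ => X.cmp hm ρ = j) (fun a => instDecidableEqFin _ _ _)
      (X.R v.1) ρ).1 hρ2
  obtain ⟨hρR, hρj⟩ := hρ3
  subst hρj
  refine Eq.trans ?_ (h v hv ρ hρR hρt)
  refine Finset.prod_congr ?_ fun _ _ => rfl
  refine Finset.ext fun (q : Pr k × Fin n) => ⟨fun h1 => ?_, fun h1 => ?_⟩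
  · exact (@Finset.mem_filter _ _ (_) _ _).2 ((@Finset.mem_filter _ _ (_) _ _).1 h1)
  · exact (@Finset.mem_filter _ _ (_) _ _).2 ((@Finset.mem_filter _ _ (_) _ _).1 h1)

end final

theorem g1 : StmtG1 := by
  intro hsel k L _ _ _ _ _ _ f X ℓ _ hp hmu hM h2 hm hfin ι Vι w SG
  classical
  -- the finite lists of classes
  choose Fs hFs1 hFs2 using fun θ θ' : L => hsel ℓ hp k L k⟮θ, θ'⟯ X.M X.hM
  set FF : Finset L := insert 1 ((X.Ω ×ˢ X.Ω).biUnion fun x => Fs x.1 x.2) with hFF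
  set hh : (X.Ω → X.Ω → FF) → L → L → L := fun h a b =>
    if hab : a ∈ X.Ω ∧ b ∈ X.Ω then (h ⟨a, hab.1⟩ ⟨b, hab.2⟩ : L) else 1 with hhh
  refine ⟨X.Ω → X.Ω → FF, inferInstance, hh, ?_⟩
  intro c S D t i hdat hi
  -- the classes
  have he : ∀ θ θ' : L, ∃ e : L, e ∈ FF ∧ (θ ∈ X.Ω → θ' ∈ X.Ω → θ ≠ θ' → e ∈ k⟮θ, θ'⟯ ∧
      ∃ d ∈ k⟮θ, θ'⟯, D θ θ' * (Zl X S w t θ)⁻¹ * Zl X S w t θ' = e * d ^ ℓ) := by
    intro θ θ'
    by_cases h1 : θ ∈ X.Ω ∧ θ' ∈ X.Ω ∧ θ ≠ θ'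
    · obtain ⟨h1, h2, h3⟩ := h1
      obtain ⟨e, he, d, hd, hz⟩ := hFs2 θ θ' _ (hdat.z_mem h1 h2 h3) (hdat.z_ne h1 h2 h3)
        (hdat.vz_z h1 h2 h3)
      exact ⟨e, Finset.mem_insert_of_mem (Finset.mem_biUnion.2 ⟨(θ, θ'),
        Finset.mem_product.2 ⟨h1, h2⟩, he⟩), fun _ _ _ => ⟨(hFs1 θ θ' e he).1, d, hd, hz⟩⟩
    · exact ⟨1, Finset.mem_insert_self _ _, fun h2 h3 h4 => absurd ⟨h2, h3, h4⟩ h1⟩
  choose e heF he using he
  have hhe : ∀ {a b : L}, a ∈ X.Ω → b ∈ X.Ω →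
      hh (fun a b => ⟨e a b, heF a b⟩) a b = e a b := by
    intro a b ha hb
    rw [hhh]
    exact dif_pos ⟨ha, hb⟩
  -- the options
  set u : Pr k → rootsOfUnity ℓ k := fun v => Aq X ℓ S w t v (st X ℓ v (t v)) with hu
  refine ⟨fun a b => ⟨e a b, heF a b⟩, u, ?_⟩
  refine badT_ofL20 X ℓ hm hfin ι Vι (fun _ _ => True) w _ S
    (fun v hv => ((hdat.hS v.1 v.2).1 hv).1) t u i (fun v hv => ⟨hi v.1 v.2 hv, trivial⟩)
    (fun v hv => ⟨hdat.t_mem v.1 v.2 hv, hdat.t_fix v.1 v.2 hv⟩) ?_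
  intro v hv ρ hρR hρt
  have hρΩ := X.R_subset v.1 hρR
  have htΩ := hdat.t_mem v.1 v.2 hv
  -- the product over `q ≠ v`
  have hprod : ∏ q ∈ S.filter (fun q => q ≠ v ∧ X.cmp hm (t q.1) = X.cmp hm ρ),
      chl X ℓ v.1 (X.len v.1 ρ) (aeval ρ (X.B q.1 (t q.1))) ^ w (t q.1) q.2 =
      Aq X ℓ S w t v.1 ρ *
      (if X.cmp hm (t v.1) = X.cmp hm ρ then
        (chl X ℓ v.1 (X.len v.1 ρ) (aeval ρ (X.B v.1 (t v.1))) ^ w (t v.1) v.2)⁻¹ else 1) := by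
    have h1 : S.filter (fun q => q ≠ v ∧ X.cmp hm (t q.1) = X.cmp hm ρ) =
        (S.filter (fun q => minpoly k (t q.1) = minpoly k ρ)).erase v := by
      ext q
      simp only [Finset.mem_filter, Finset.mem_erase]
      constructor
      · rintro ⟨h1, h2, h3⟩
        exact ⟨h2, h1, (X.cmp_eq hm (hdat.t_mem q.1 q.2 h1) hρΩ).1 h3⟩
      · rintro ⟨h2, h1, h3⟩
        exact ⟨h1, h2, (X.cmp_eq hm (hdat.t_mem q.1 q.2 h1) hρΩ).2 h3⟩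
    rw [h1, Aq]
    split_ifs with h2
    · have h3 : v ∈ S.filter (fun q => minpoly k (t q.1) = minpoly k ρ) :=
        Finset.mem_filter.2 ⟨hv, (X.cmp_eq hm htΩ hρΩ).1 h2⟩
      rw [← Finset.prod_erase_mul _ _ h3, mul_assoc, mul_inv_cancel, mul_one]
    · have h3 : v ∉ S.filter (fun q => minpoly k (t q.1) = minpoly k ρ) := fun h3 =>
        h2 ((X.cmp_eq hm htΩ hρΩ).2 (Finset.mem_filter.1 h3).2)
      rw [Finset.erase_eq_of_notMem h3, mul_one]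
  rw [hprod]
  unfold ggL
  congr 1
  split_ifs with h1
  · have h1' : ρ = st X ℓ v.1 (t v.1) := h1
    rw [h1']
  · have hst := st_mem (ℓ := ℓ) X h2 (hdat.t_fix v.1 v.2 hv)
    have hsΩ := X.R_subset v.1 (Finset.mem_erase.1 hst).2
    obtain ⟨he1, d, hd, hz⟩ := he ρ (st X ℓ v.1 (t v.1)) hρΩ hsΩ h1
    have h5 : hh (fun a b => ⟨e a b, heF a b⟩) ρ (st X ℓ v.1 (t v.1)) =
        e ρ (st X ℓ v.1 (t v.1)) := hhe hρΩ hsΩ
    change _ = (_ * _ * (chE X ℓ v.1 _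
      (hh (fun a b => ⟨e a b, heF a b⟩) ρ (st X ℓ v.1 (t v.1))))⁻¹) ^ _
    rw [h5]
    have h6 := hdat.rel hp hM hmu h2 (v := v.1) (e₀ := v.2) hv (Finset.mem_erase.2 ⟨hρt, hρR⟩)
      h1 he1 hd hz
    have h7 := not_dvd_quot X hp h2 (hdat.t_fix v.1 v.2 hv) (Finset.mem_erase.2 ⟨hρt, hρR⟩)
    refine (root_pow_inv hp (Aq X ℓ S w t v.1 ρ) h7).symm.trans ?_
    rw [h6]

end Pool.Agent.PD
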